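import Mathlib
import Pool.Agent.Lib.MP_6babc4_nt.Defs
import Pool.Agent.Lib.MP_6babc4_nt.AllCond

/-!
# The dependence on the field in Frey's height inequality: the sharp constant in every degree

Over every number field `F` and for every `d ≥ 2` there are extensions `K / F` of degree `d` and
semistable elliptic curves over `K` of bounded conductor (of conductor `1` if `F` has infinitely
many units, and of conductor `2` if `F = ℚ`) whose Faltings height is at least
`(1 / (2 [K : ℚ])) log |D_K| - (1 / 2) log log |D_K| - C`, and arbitrarily large.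
-/

set_option autoImplicit false

open NumberField Module IsDedekindDomain WeierstrassCurve

namespace Pool.Agent.Results.MP_6babc4_nt.SharpEveryDegree

/-- The Faltings height of the elliptic curve over the number field `K` given by a Weierstrass
equation `W` over `𝓞 K` **with coprime `c₄` and `Δ`**. Such an equation is minimal at every finite
place (at a place dividing `Δ` the invariant `c₄` is a unit), the curve is semistable, and
`ω = dx / (2y + a₁x + a₃)` generates the Hodge bundle over `𝓞 K`. So the Arakelov degree divided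
by `[K : ℚ]` is `- (1 / [K : ℚ]) ∑_σ log ‖ω‖_σ` with
`‖ω‖_σ² = (i/2) ∫ ω ∧ ω̄ = 2 areaIntegral (σ W)`, the sum running over all embeddings
`σ : K → ℂ`. -/
noncomputable def faltingsHeight (K : Type*) [Field K] [NumberField K]
    (W : WeierstrassCurve (𝓞 K)) : ℝ :=
  -(1 / (2 * (finrank ℚ K : ℝ))) *
    ∑ σ : K →+* ℂ, Real.log (2 * FreyHt.areaIntegral (W.map (σ.comp (algebraMap (𝓞 K) K))))

/-- The conductor of the elliptic curve over the number field `K` given by a Weierstrass equation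
`W` over `𝓞 K` **with coprime `c₄` and `Δ ≠ 0`**. The curve has good reduction at the places not
dividing `Δ` and multiplicative reduction, with conductor exponent `1`, at the places dividing
`Δ`; so the conductor is the product of the norms of the latter. -/
noncomputable def conductor (K : Type*) [Field K] [NumberField K]
    (W : WeierstrassCurve (𝓞 K)) : ℕ :=
  ∏ᶠ v ∈ {v : HeightOneSpectrum (𝓞 K) | W.Δ ∈ v.asIdeal}, Ideal.absNorm v.asIdeal

/-- The comparison for one field of the construction. -/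
lemma step {F K : Type*} [Field F] [NumberField F] [Field K] [NumberField K] [Algebra F K]
    {a P : 𝓞 F} {c : 𝓞 K} (h : FreyAll.Data a P c) {A B : ℝ} (hA1 : 1 ≤ A)
    (hA : ∀ σ : F →+* ℂ, ‖σ a‖ ≤ A)
    (hne : (finrank F K : 𝓞 K) * c ^ (finrank F K - 1) -
      16 * algebraMap (𝓞 F) (𝓞 K) a * algebraMap (𝓞 F) (𝓞 K) P ≠ 0)
    (hle : (discr K).natAbs ≤ (Algebra.norm ℤ ((finrank F K : 𝓞 K) * c ^ (finrank F K - 1) -
        16 * algebraMap (𝓞 F) (𝓞 K) a * algebraMap (𝓞 F) (𝓞 K) P)).natAbs *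
          (discr F).natAbs ^ finrank F K)
    {n d C₂ C₄ E : ℝ} (hn : n = finrank ℚ K) (hd : d = finrank F K)
    (hC₂ : C₂ = n * Real.log (33 * d * A) + d * Real.log |((discr F : ℤ) : ℝ)|)
    (hC₄ : C₄ = ∑ σ : F →+* ℂ, |Real.log ‖σ a‖|)
    (hE : E = Real.log (6800 * (1 + 4 * n + 2 * n * Real.log (289 * A))))
    (hx : n ≤ d * FreyAll.lsum (P : F))
    (hx2 : 4 * n * (B + 1 / 2 * Real.log (2 * n) + C₄ / (2 * n) + E / 2) <
      d * FreyAll.lsum (P : F)) :
    B < faltingsHeight K (FreyAll.curve (FreyAll.bb P c)) ∧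
      1 / (2 * (finrank ℚ K : ℝ)) * Real.log |((discr K : ℤ) : ℝ)| -
        1 / 2 * Real.log (Real.log |((discr K : ℤ) : ℝ)|) -
        (C₂ / (2 * n) + C₄ / (2 * n) + E / 2 + 1 / 2 * Real.log (2 + n)) ≤
      faltingsHeight K (FreyAll.curve (FreyAll.bb P c)) := by
  have hd2 : 2 ≤ finrank F K := h.deg
  have hK1 : 1 < finrank ℚ K := by
    rw [← finrank_mul_finrank ℚ F K]
    have : 0 < finrank ℚ F := finrank_pos
    nlinarith
  have hn2 : (2 : ℝ) ≤ n := by
    rw [hn]; exact_mod_cast hK1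
  have hd2' : (2 : ℝ) ≤ d := by
    rw [hd]; exact_mod_cast hd2
  have hDF : (1 : ℝ) ≤ |((discr F : ℤ) : ℝ)| := by
    rw [← Int.cast_abs]
    exact_mod_cast Int.one_le_abs (discr_ne_zero F)
  have hC₂0 : 0 ≤ C₂ := by
    have h1 : 0 ≤ Real.log (33 * d * A) := Real.log_nonneg (by nlinarith)
    have h2 : 0 ≤ Real.log |((discr F : ℤ) : ℝ)| := Real.log_nonneg hDF
    rw [hC₂]
    positivity
  have hdK : (3 : ℝ) ≤ |((discr K : ℤ) : ℝ)| := by
    have h2 := abs_discr_gt_two hK1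
    rw [← Int.cast_abs]
    exact_mod_cast h2
  have hD1 : 1 ≤ Real.log |((discr K : ℤ) : ℝ)| := by
    rw [Real.le_log_iff_exp_le (by linarith)]
    have := Real.exp_one_lt_d9
    linarith
  have hdu := h.discr_upper hA1 hA hne hle
  rw [← hn, ← hd, ← hC₂] at hdu
  have hht := h.height_lower hA1 hA
  rw [← hn, ← hd, ← hC₄, ← hE] at hht
  rw [← hn]
  exact FreyAll.final_real hn2 (by linarith) (FreyAll.lsum_nonneg _) hC₂0 hD1 hdu hht hx hx2

/-- A number field with infinitely many units has positive unit rank. -/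
lemma rank_pos {F : Type*} [Field F] [NumberField F] (h : Infinite (𝓞 F)ˣ) :
    0 < Units.rank F := by
  classical
  by_contra h0
  have hcard : Fintype.card (InfinitePlace F) ≤ 1 := by
    unfold Units.rank at h0
    omega
  have hsub : Subsingleton (InfinitePlace F) := Fintype.card_le_one_iff_subsingleton.1 hcard
  have hall : ∀ x : (𝓞 F)ˣ, x ∈ Units.torsion F := by
    intro x
    rw [Units.mem_torsion]
    intro w
    have h1 := Units.sum_mult_mul_log x
    rw [Fintype.sum_subsingleton _ w] at h1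
    have hx0 : ((x : 𝓞 F) : F) ≠ 0 := by
      intro h2
      exact x.ne_zero (RingOfIntegers.coe_eq_zero_iff.1 h2)
    have hpos : 0 < w ((x : 𝓞 F) : F) := (InfinitePlace.pos_iff).2 hx0
    rcases mul_eq_zero.1 h1 with h2 | h2
    · exact absurd h2 (by exact_mod_cast w.mult_pos.ne')
    · exact Real.eq_one_of_pos_of_log_eq_zero hpos h2
  have : Finite (𝓞 F)ˣ := Finite.of_injective
    (fun x : (𝓞 F)ˣ => (⟨x, hall x⟩ : Units.torsion F))
    (fun x y hxy => congrArg (fun z : Units.torsion F => (z : (𝓞 F)ˣ)) hxy)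
  exact not_finite (𝓞 F)ˣ

/-- The data of the construction, in both cases. -/
lemma exists_data (F : Type) [Field F] [NumberField F] {d : ℕ} (hd : 2 ≤ d) :
    ∃ a m p : 𝓞 F, a ≠ 0 ∧ m ≠ 0 ∧ p ≠ 0 ∧ (∃ σ : F →+* ℂ, 1 < ‖σ p‖) ∧
      (∃ k₀ : ℕ, ∀ k, k₀ ≤ k → Irreducible (FreyAll.pol d a (p ^ k)) ∧
        ∃ j : ℕ, a * p ^ k ∣ m ^ j) ∧
      (Infinite (𝓞 F)ˣ → IsUnit a ∧ IsUnit p ∧ m = 1) ∧
      (finrank ℚ F = 1 → (Algebra.norm ℤ a).natAbs = 2 ∧ m = a) := by
  obtain ⟨σ⟩ : Nonempty (F →+* ℂ) := inferInstance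
  have hσ2 : 1 < ‖σ ((2 : 𝓞 F) : F)‖ := by
    have : σ ((2 : 𝓞 F) : F) = 2 := by
      change σ (algebraMap (𝓞 F) F 2) = 2
      rw [map_ofNat, map_ofNat]
    rw [this]
    norm_num
  by_cases hF : finrank ℚ F = 1
  · obtain ⟨h1, h2⟩ := FreyAll.exists_data_rat F hF
    refine ⟨2, 2, 2, two_ne_zero, two_ne_zero, two_ne_zero, ⟨σ, hσ2⟩,
      ⟨0, fun k _ => ⟨h2 d hd k, k + 1, ?_⟩⟩, fun hinf => ?_, fun _ => ⟨h1, rfl⟩⟩
    · rw [pow_succ, mul_comm]
    · exfalso
      have h3 := rank_pos hinf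
      have h4 := InfinitePlace.card_add_two_mul_card_eq_rank F
      have h5 := InfinitePlace.card_eq_nrRealPlaces_add_nrComplexPlaces F
      unfold Units.rank at h3
      omega
  by_cases hinf : Infinite (𝓞 F)ˣ
  · obtain ⟨p, hpu, hσ, k₀, hk₀⟩ := FreyAll.exists_data_two F (rank_pos hinf) hd
    refine ⟨1, 1, p, one_ne_zero, one_ne_zero, hpu.ne_zero, hσ,
      ⟨k₀, fun k hk => ⟨hk₀ k hk, 1, ?_⟩⟩, fun _ => ⟨isUnit_one, hpu, rfl⟩,
      fun h => absurd h hF⟩
    rw [one_mul]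
    exact (hpu.pow k).dvd
  · obtain ⟨a, m, ha, hm, hdata⟩ := FreyAll.exists_data_one F
    exact ⟨a, m, 2, ha, hm, two_ne_zero, ⟨σ, hσ2⟩,
      ⟨0, fun k _ => ⟨(hdata d hd k).1, k + 1, (hdata d hd k).2⟩⟩, fun h => absurd h hinf,
      fun h => absurd h hF⟩

/-- For every number field `F` and every `d ≥ 2` there is a constant `C` such that for every `B`
there are an extension `K / F` of degree `d` and an elliptic curve over `K` given by a Weierstrass
equation `W` over `𝓞 K` with coprime `c₄` and `Δ ≠ 0` (minimal everywhere and semistable), whose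
conductor is at most `C`, is `1` if the unit group of `𝓞 F` is infinite (good reduction
everywhere), and is `2` if `F = ℚ`, and whose Faltings height is larger than `B` and at least
`(1 / (2 [K : ℚ])) log |D_K| - (1 / 2) log log |D_K| - C`. -/
theorem result : ∀ (F : Type) [Field F] [NumberField F] (d : ℕ), 2 ≤ d → ∃ C : ℝ, ∀ B : ℝ,
    ∃ (K : Type) (_ : Field K) (_ : NumberField K) (_ : Algebra F K) (W : WeierstrassCurve (𝓞 K)),
      finrank F K = d ∧ W.Δ ≠ 0 ∧ IsCoprime W.c₄ W.Δ ∧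
      (conductor K W : ℝ) ≤ C ∧ (Infinite (𝓞 F)ˣ → IsUnit W.Δ ∧ conductor K W = 1) ∧
      (finrank ℚ F = 1 → conductor K W = 2) ∧
      B < faltingsHeight K W ∧
      1 / (2 * (finrank ℚ K : ℝ)) * Real.log |((discr K : ℤ) : ℝ)| -
        1 / 2 * Real.log (Real.log |((discr K : ℤ) : ℝ)|) - C ≤ faltingsHeight K W := by
  intro F _ _ d hd
  obtain ⟨a, m, p, ha, hm, hp, ⟨σ₀, hσ₀⟩, ⟨k₀, hk₀⟩, hunits, hrat⟩ := exists_data F hd
  set s₀ : ℝ := FreyAll.lsum (p : F) with hs₀
  have hs₀0 : 0 < s₀ := FreyAll.lsum_pos hσ₀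
  set A : ℝ := 1 + ∑ σ : F →+* ℂ, ‖σ a‖ with hAdef
  have hA1 : 1 ≤ A := by
    have : 0 ≤ ∑ σ : F →+* ℂ, ‖σ a‖ := Finset.sum_nonneg fun σ _ => norm_nonneg _
    linarith
  have hA : ∀ σ : F →+* ℂ, ‖σ a‖ ≤ A := by
    intro σ
    have := Finset.single_le_sum (f := fun σ : F →+* ℂ => ‖σ a‖) (fun σ _ => norm_nonneg _)
      (Finset.mem_univ σ)
    rw [hAdef]
    linarith
  set n : ℝ := ((finrank ℚ F * d : ℕ) : ℝ) with hn
  set C₂ : ℝ := n * Real.log (33 * d * A) + d * Real.log |((discr F : ℤ) : ℝ)| with hC₂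
  set C₄ : ℝ := ∑ σ : F →+* ℂ, |Real.log ‖σ a‖| with hC₄
  set E : ℝ := Real.log (6800 * (1 + 4 * n + 2 * n * Real.log (289 * A))) with hE
  set C' : ℝ := C₂ / (2 * n) + C₄ / (2 * n) + E / 2 + 1 / 2 * Real.log (2 + n) with hC'
  set Q : ℝ := (((Algebra.norm ℤ m).natAbs ^ d : ℕ) : ℝ) with hQ
  refine ⟨max C' Q, fun B => ?_⟩
  set T : ℝ := max n (4 * n * (B + 1 / 2 * Real.log (2 * n) + C₄ / (2 * n) + E / 2)) with hT
  obtain ⟨k₁, hk₁⟩ := exists_nat_gt (T / (d * s₀))
  have hd0 : (0 : ℝ) < d := by exact_mod_cast (by omega : 0 < d)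
  set k := max k₀ k₁ with hk
  obtain ⟨hirr, j, hj⟩ := hk₀ k (le_max_left _ _)
  have hkT : T < d * (k * s₀) := by
    have h1 : T / (d * s₀) < k :=
      hk₁.trans_le (by exact_mod_cast le_max_right k₀ k₁)
    rw [div_lt_iff₀ (by positivity)] at h1
    calc T < k * (d * s₀) := h1
      _ = _ := by ring
  have hP0 : p ^ k ≠ 0 := pow_ne_zero _ hp
  obtain ⟨K, i1, i2, i3, c, hfin, hData, hne, hle⟩ := FreyAll.exists_field hd ha hP0 hirr
  have hlsum : FreyAll.lsum ((p ^ k : 𝓞 F) : F) = k * s₀ := by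
    have : ((p ^ k : 𝓞 F) : F) = (p : F) ^ k := by
      change algebraMap (𝓞 F) F (p ^ k) = _
      rw [map_pow]
    rw [this, FreyAll.lsum_pow]
  have hnK : n = finrank ℚ K := by
    rw [hn, ← finrank_mul_finrank ℚ F K, hfin]
  have hdK : (d : ℝ) = finrank F K := by rw [hfin]
  have hstep := step (B := B) hData hA1 hA (by rw [hfin]; exact hne) (by rw [hfin]; exact hle)
    hnK hdK hC₂ hC₄ hE (by rw [hlsum]; exact (le_max_left _ _).trans hkT.le)
    (by rw [hlsum]; exact (le_max_right _ _).trans_lt hkT)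
  have hcond : conductor K (FreyAll.curve (FreyAll.bb (p ^ k) c)) ≤
      (Algebra.norm ℤ m).natAbs ^ d := by
    have := hData.badNorm_bound hm hj
    rw [hfin] at this
    exact this
  refine ⟨K, i1, i2, i3, FreyAll.curve (FreyAll.bb (p ^ k) c), hfin, hData.Δ_ne,
    FreyAll.curve_coprime _, ?_, ?_, ?_, hstep.1, ?_⟩
  · refine le_trans ?_ (le_max_right C' Q)
    rw [hQ]
    exact_mod_cast hcond
  · intro hinf
    obtain ⟨hau, hpu, hm1⟩ := hunits hinf
    have hΔ := hData.Δ_unit hau (hpu.pow k)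
    refine ⟨hΔ, ?_⟩
    unfold conductor
    have hempty : {v : HeightOneSpectrum (𝓞 K) |
        (FreyAll.curve (FreyAll.bb (p ^ k) c)).Δ ∈ v.asIdeal} = ∅ := by
      ext v
      simp only [Set.mem_ofPred_eq, Set.mem_empty_iff_false, iff_false]
      intro hv
      exact v.isPrime.ne_top (Ideal.eq_top_of_isUnit_mem _ hv hΔ)
    rw [hempty, finprod_mem_empty]
  · intro hF
    obtain ⟨h1, rfl⟩ := hrat hF
    exact hData.badNorm_eq Nat.prime_two h1 hj
  · have h1 := hstep.2
    have h2 := le_max_left C' Q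
    rw [← hC'] at h1
    linarith

end Pool.Agent.Results.MP_6babc4_nt.SharpEveryDegree
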